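import Mathlib

/-!
# Zero forcing number versus independence number in subcubic graphs

A connected graph with 24 vertices and maximum degree 3 whose zero forcing number is 11 and whose
independence number is 9.  The graph: a triangle `(0,0)`, `(1,0)`, `(2,0)`; each vertex `(x,0)` is
joined to `(x,1)`, and `(x,1)` is joined to one vertex of each of the two triangles
`(x,2)`, `(x,3)`, `(x,4)` and `(x,5)`, `(x,6)`, `(x,7)`.
-/

set_option autoImplicit false

namespace Pool.Agent.Results.MP_48c3bc_co.SubcubicNet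

/-- One application of the colour-change rule: `T` is obtained from `S` by adding a vertex `w`
which is the only neighbour outside `S` of some vertex `v` of `S`. -/
def Step {V : Type} (G : SimpleGraph V) (S T : Set V) : Prop :=
  ∃ v ∈ S, ∃ w, w ∉ S ∧ G.Adj v w ∧ (∀ u, G.Adj v u → u ∉ S → u = w) ∧ T = insert w S

/-- `S` is a zero forcing set: repeated application of the rule to `S` reaches the set of all
vertices. -/
def IsZeroForcing {V : Type} (G : SimpleGraph V) (S : Set V) : Prop :=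
  Relation.ReflTransGen (Step G) S Set.univ

/-- The zero forcing number. -/
noncomputable def zeroForcingNumber {V : Type} (G : SimpleGraph V) : ℕ :=
  sInf {k | ∃ S : Finset V, S.card = k ∧ IsZeroForcing G (S : Set V)}

/-- a zero forcing set meets every nonempty set `F` such that no vertex outside `F` has exactly
one neighbour in `F` -/
theorem meets {V : Type} (G : SimpleGraph V) {S F : Set V} (hS : IsZeroForcing G S)
    (hne : F.Nonempty)
    (hF : ∀ v, v ∉ F → ∀ w ∈ F, G.Adj v w → ∃ u ∈ F, u ≠ w ∧ G.Adj v u) :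
    ∃ v ∈ F, v ∈ S := by
  by_contra hcon
  push Not at hcon
  have key : ∀ T, Relation.ReflTransGen (Step G) S T → ∀ v ∈ F, v ∉ T := by
    intro T hT
    induction hT with
    | refl => exact hcon
    | tail _ hst ih =>
      obtain ⟨v, hv, w, hw, hadj, huniq, rfl⟩ := hst
      intro x hx hxT
      rcases Set.mem_insert_iff.1 hxT with rfl | h
      · have hvF : v ∉ F := fun h => ih v h hv
        obtain ⟨u, huF, hne', hadj'⟩ := hF v hvF x hx hadj
        exact hne' (huniq u hadj' (ih u huF))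
      · exact ih x hx h
  obtain ⟨v, hv⟩ := hne
  exact key _ hS v hv (Set.mem_univ v)

/-- adjacency inside a branch -/
def inner (i j : Fin 8) : Bool :=
  match i.val, j.val with
  | 0, 1 => true
  | 1, 0 => true
  | 1, 2 => true
  | 2, 1 => true
  | 1, 5 => true
  | 5, 1 => true
  | 2, 3 => true
  | 3, 2 => true
  | 2, 4 => true
  | 4, 2 => true
  | 3, 4 => true
  | 4, 3 => true
  | 5, 6 => true
  | 6, 5 => true
  | 5, 7 => true
  | 7, 5 => true
  | 6, 7 => true
  | 7, 6 => true
  | _, _ => false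

/-- adjacency of the graph -/
def adj (a b : Fin 3 × Fin 8) : Bool :=
  (decide (a.1 = b.1) && inner a.2 b.2) ||
    (!decide (a.1 = b.1) && decide (a.2 = 0) && decide (b.2 = 0))

/-- the graph -/
def net : SimpleGraph (Fin 3 × Fin 8) where
  Adj a b := adj a b = true
  symm := ⟨by decide +kernel⟩
  loopless := ⟨by decide +kernel⟩

instance : DecidableRel net.Adj := fun a b => inferInstanceAs (Decidable (adj a b = true))

/-- the vertex of the triangle `(x, i)` joined to the rest -/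
def w (x : Fin 3) (i : Bool) : Fin 3 × Fin 8 := (x, if i then 5 else 2)

/-- the two other vertices of the triangle `(x, i)` -/
def t (x : Fin 3) (i s : Bool) : Fin 3 × Fin 8 :=
  (x, if i then (if s then 7 else 6) else (if s then 4 else 3))

/-- `F` is a set such that no vertex outside `F` has exactly one neighbour in `F` -/
def isFort (F : Finset (Fin 3 × Fin 8)) : Bool :=
  decide (∀ v, v ∉ F → ∀ z ∈ F, adj v z = true → ∃ u ∈ F, u ≠ z ∧ adj v u = true)

theorem meets_net (F : Finset (Fin 3 × Fin 8)) (hne : F.Nonempty) (hF : isFort F = true)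
    {S : Finset (Fin 3 × Fin 8)} (hS : IsZeroForcing net (S : Set (Fin 3 × Fin 8))) :
    ∃ v ∈ F, v ∈ S := by
  have hF' := of_decide_eq_true hF
  obtain ⟨v, hv, hv'⟩ := meets net hS (F := (F : Set (Fin 3 × Fin 8))) (by exact_mod_cast hne)
    (by
      intro v hv w hw hadj
      obtain ⟨u, hu, h1, h2⟩ := hF' v (by exact_mod_cast hv) w (by exact_mod_cast hw) hadj
      exact ⟨u, by exact_mod_cast hu, h1, h2⟩)
  exact ⟨v, by exact_mod_cast hv, by exact_mod_cast hv'⟩

theorem fort1 : ∀ x : Fin 3, ∀ i : Bool,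
    isFort {t x i false, t x i true} = true := by
  decide +kernel

theorem fort2 : ∀ x : Fin 3, ∀ s s' : Bool,
    isFort {w x false, t x false s, w x true, t x true s'} = true := by
  decide +kernel

theorem fort3 : ∀ x y : Fin 3, x < y → ∀ i s j s' : Bool,
    isFort {(x, 0), (y, 0), w x i, t x i s, w y j, t y j s'} = true := by
  decide +kernel

/-- the case analysis in a branch -/
theorem branch : ∀ w0 p0 q0 w1 p1 q1 : Bool, (p0 || q0) = true → (p1 || q1) = true →
    (w0 || p0 || w1 || p1) = true → (w0 || p0 || w1 || q1) = true →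
    (w0 || q0 || w1 || p1) = true → (w0 || q0 || w1 || q1) = true →
    3 ≤ w0.toNat + p0.toNat + q0.toNat + w1.toNat + p1.toNat + q1.toNat ∧
    (w0.toNat + p0.toNat + q0.toNat + w1.toNat + p1.toNat + q1.toNat = 3 →
      (w0 = false ∧ p0 = false) ∨ (w0 = false ∧ q0 = false) ∨
      (w1 = false ∧ p1 = false) ∨ (w1 = false ∧ q1 = false)) := by
  intro w0 p0 q0 w1 p1 q1
  cases w0 <;> cases p0 <;> cases q0 <;> cases w1 <;> cases p1 <;> cases q1 <;> decide

/-- the number of the elements of a set -/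
theorem card_eq (S : Finset (Fin 3 × Fin 8)) : S.card = ∑ x : Fin 3,
    ((decide ((x, 0) ∈ S)).toNat + (decide ((x, 1) ∈ S)).toNat + (decide ((x, 2) ∈ S)).toNat +
    (decide ((x, 3) ∈ S)).toNat + (decide ((x, 4) ∈ S)).toNat + (decide ((x, 5) ∈ S)).toNat +
    (decide ((x, 6) ∈ S)).toNat + (decide ((x, 7) ∈ S)).toNat) := by
  have h : S.card = ∑ v : Fin 3 × Fin 8, (decide (v ∈ S)).toNat := by
    rw [Finset.card_eq_sum_ones, ← Finset.sum_filter_add_sum_filter_not Finset.univ (· ∈ S)]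
    have h1 : ∑ v ∈ Finset.univ.filter (fun v => ¬ v ∈ S), (decide (v ∈ S)).toNat = 0 := by
      apply Finset.sum_eq_zero
      intro v hv
      simp [(Finset.mem_filter.1 hv).2]
    rw [h1, add_zero]
    have h2 : Finset.univ.filter (fun v => v ∈ S) = S := by ext v; simp
    rw [h2]
    apply Finset.sum_congr rfl
    intro v hv
    simp [hv]
  rw [h, Fintype.sum_prod_type]
  apply Finset.sum_congr rfl
  intro x _
  rw [Fin.sum_univ_eight]

theorem lower {S : Finset (Fin 3 × Fin 8)}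
    (hS : IsZeroForcing net (S : Set (Fin 3 × Fin 8))) : 11 ≤ S.card := by
  have e1 : ∀ (x : Fin 3) (i : Bool), t x i false ∈ S ∨ t x i true ∈ S := by
    intro x i
    obtain ⟨v, hv, hvS⟩ := meets_net _ ⟨_, Finset.mem_insert_self _ _⟩ (fort1 x i) hS
    simp only [Finset.mem_insert, Finset.mem_singleton] at hv
    rcases hv with rfl | rfl
    · exact Or.inl hvS
    · exact Or.inr hvS
  have e2 : ∀ (x : Fin 3) (s s' : Bool),
      w x false ∈ S ∨ t x false s ∈ S ∨ w x true ∈ S ∨ t x true s' ∈ S := by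
    intro x s s'
    obtain ⟨v, hv, hvS⟩ := meets_net _ ⟨_, Finset.mem_insert_self _ _⟩ (fort2 x s s') hS
    simp only [Finset.mem_insert, Finset.mem_singleton] at hv
    rcases hv with rfl | rfl | rfl | rfl
    · exact Or.inl hvS
    · exact Or.inr (Or.inl hvS)
    · exact Or.inr (Or.inr (Or.inl hvS))
    · exact Or.inr (Or.inr (Or.inr hvS))
  have e3 : ∀ (x y : Fin 3), x < y → ∀ i s j s' : Bool,
      (x, 0) ∈ S ∨ (y, 0) ∈ S ∨ w x i ∈ S ∨ t x i s ∈ S ∨ w y j ∈ S ∨ t y j s' ∈ S := by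
    intro x y hxy i s j s'
    obtain ⟨v, hv, hvS⟩ := meets_net _ ⟨_, Finset.mem_insert_self _ _⟩
      (fort3 x y hxy i s j s') hS
    simp only [Finset.mem_insert, Finset.mem_singleton] at hv
    rcases hv with rfl | rfl | rfl | rfl | rfl | rfl
    · exact Or.inl hvS
    · exact Or.inr (Or.inl hvS)
    · exact Or.inr (Or.inr (Or.inl hvS))
    · exact Or.inr (Or.inr (Or.inr (Or.inl hvS)))
    · exact Or.inr (Or.inr (Or.inr (Or.inr (Or.inl hvS))))
    · exact Or.inr (Or.inr (Or.inr (Or.inr (Or.inr hvS))))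
  -- a triangle with two vertices outside `S`
  have e4 : ∀ x y : Fin 3, x < y → (∃ i s, w x i ∉ S ∧ t x i s ∉ S) →
      (∃ j s', w y j ∉ S ∧ t y j s' ∉ S) → (x, 0) ∈ S ∨ (y, 0) ∈ S := by
    rintro x y hxy ⟨i, s, h1, h2⟩ ⟨j, s', h3, h4⟩
    have := e3 x y hxy i s j s'
    tauto
  have e5 : ∀ x : Fin 3,
      3 ≤ (decide ((x, 2) ∈ S)).toNat + (decide ((x, 3) ∈ S)).toNat +
        (decide ((x, 4) ∈ S)).toNat + (decide ((x, 5) ∈ S)).toNat +
        (decide ((x, 6) ∈ S)).toNat + (decide ((x, 7) ∈ S)).toNat ∧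
      ((decide ((x, 2) ∈ S)).toNat + (decide ((x, 3) ∈ S)).toNat +
        (decide ((x, 4) ∈ S)).toNat + (decide ((x, 5) ∈ S)).toNat +
        (decide ((x, 6) ∈ S)).toNat + (decide ((x, 7) ∈ S)).toNat = 3 →
        ∃ i s, w x i ∉ S ∧ t x i s ∉ S) := by
    intro x
    have a1 : (x, 3) ∈ S ∨ (x, 4) ∈ S := e1 x false
    have a2 : (x, 6) ∈ S ∨ (x, 7) ∈ S := e1 x true
    have a3 : (x, 2) ∈ S ∨ (x, 3) ∈ S ∨ (x, 5) ∈ S ∨ (x, 6) ∈ S := e2 x false false
    have a4 : (x, 2) ∈ S ∨ (x, 3) ∈ S ∨ (x, 5) ∈ S ∨ (x, 7) ∈ S := e2 x false true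
    have a5 : (x, 2) ∈ S ∨ (x, 4) ∈ S ∨ (x, 5) ∈ S ∨ (x, 6) ∈ S := e2 x true false
    have a6 : (x, 2) ∈ S ∨ (x, 4) ∈ S ∨ (x, 5) ∈ S ∨ (x, 7) ∈ S := e2 x true true
    have hb := branch (decide ((x, 2) ∈ S)) (decide ((x, 3) ∈ S)) (decide ((x, 4) ∈ S))
      (decide ((x, 5) ∈ S)) (decide ((x, 6) ∈ S)) (decide ((x, 7) ∈ S))
      (by simpa using a1) (by simpa using a2) (by simpa [or_assoc] using a3)
      (by simpa [or_assoc] using a4) (by simpa [or_assoc] using a5)
      (by simpa [or_assoc] using a6)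
    refine ⟨hb.1, fun h => ?_⟩
    rcases hb.2 h with ⟨h1, h2⟩ | ⟨h1, h2⟩ | ⟨h1, h2⟩ | ⟨h1, h2⟩
    · exact ⟨false, false, by simpa [w] using h1, by simpa [t] using h2⟩
    · exact ⟨false, true, by simpa [w] using h1, by simpa [t] using h2⟩
    · exact ⟨true, false, by simpa [w] using h1, by simpa [t] using h2⟩
    · exact ⟨true, true, by simpa [w] using h1, by simpa [t] using h2⟩
  have e6 : ∀ x y : Fin 3, x < y →
      (decide ((x, 2) ∈ S)).toNat + (decide ((x, 3) ∈ S)).toNat +
        (decide ((x, 4) ∈ S)).toNat + (decide ((x, 5) ∈ S)).toNat +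
        (decide ((x, 6) ∈ S)).toNat + (decide ((x, 7) ∈ S)).toNat = 3 →
      (decide ((y, 2) ∈ S)).toNat + (decide ((y, 3) ∈ S)).toNat +
        (decide ((y, 4) ∈ S)).toNat + (decide ((y, 5) ∈ S)).toNat +
        (decide ((y, 6) ∈ S)).toNat + (decide ((y, 7) ∈ S)).toNat = 3 →
      1 ≤ (decide ((x, 0) ∈ S)).toNat + (decide ((y, 0) ∈ S)).toNat := by
    intro x y hxy hx hy
    rcases e4 x y hxy ((e5 x).2 hx) ((e5 y).2 hy) with h | h <;> simp [h]
  rw [card_eq, Fin.sum_univ_three]
  have b0 := (e5 0).1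
  have b1 := (e5 1).1
  have b2 := (e5 2).1
  have c01 := e6 0 1 (by decide)
  have c02 := e6 0 2 (by decide)
  have c12 := e6 1 2 (by decide)
  generalize (decide (((0 : Fin 3), (0 : Fin 8)) ∈ S)).toNat = u0 at *
  generalize (decide (((1 : Fin 3), (0 : Fin 8)) ∈ S)).toNat = u1 at *
  generalize (decide (((2 : Fin 3), (0 : Fin 8)) ∈ S)).toNat = u2 at *
  omega

theorem upper (s : Finset (Fin 3 × Fin 8)) (hs : net.IsIndepSet (s : Set (Fin 3 × Fin 8))) :
    s.card ≤ 9 := by
  have hne : ∀ a b : Fin 3 × Fin 8, net.Adj a b →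
      (decide (a ∈ s)).toNat + (decide (b ∈ s)).toNat ≤ 1 := by
    intro a b hab
    by_cases ha : a ∈ s
    · by_cases hb : b ∈ s
      · exact absurd hab (hs (by exact_mod_cast ha) (by exact_mod_cast hb) hab.ne)
      · simp [ha, hb]
    · by_cases hb : b ∈ s <;> simp [ha, hb]
  have hA : ∀ x : Fin 3, net.Adj (x, 0) (x, 1) ∧ net.Adj (x, 2) (x, 3) ∧ net.Adj (x, 2) (x, 4) ∧
      net.Adj (x, 3) (x, 4) ∧ net.Adj (x, 5) (x, 6) ∧ net.Adj (x, 5) (x, 7) ∧
      net.Adj (x, 6) (x, 7) := by decide +kernel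
  rw [card_eq]
  have : ∀ x ∈ (Finset.univ : Finset (Fin 3)),
    ((decide ((x, 0) ∈ s)).toNat + (decide ((x, 1) ∈ s)).toNat + (decide ((x, 2) ∈ s)).toNat +
    (decide ((x, 3) ∈ s)).toNat + (decide ((x, 4) ∈ s)).toNat + (decide ((x, 5) ∈ s)).toNat +
    (decide ((x, 6) ∈ s)).toNat + (decide ((x, 7) ∈ s)).toNat) ≤ 3 := by
    intro x _
    obtain ⟨h1, h2, h3, h4, h5, h6, h7⟩ := hA x
    have g1 := hne _ _ h1
    have g2 := hne _ _ h2
    have g3 := hne _ _ h3
    have g4 := hne _ _ h4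
    have g5 := hne _ _ h5
    have g6 := hne _ _ h6
    have g7 := hne _ _ h7
    have k2 : (decide ((x, 2) ∈ s)).toNat ≤ 1 := Bool.toNat_le _
    have k5 : (decide ((x, 5) ∈ s)).toNat ≤ 1 := Bool.toNat_le _
    omega
  refine (Finset.sum_le_card_nsmul _ _ _ this).trans ?_
  simp

theorem connected : net.Connected := by
  have h : ∀ v, net.Reachable (0, 0) v := by
    have r0 : ∀ x : Fin 3, net.Reachable (0, 0) (x, 0) := by
      intro x
      by_cases hx : x = 0
      · subst hx
        exact SimpleGraph.Reachable.refl _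
      · have : ∀ x : Fin 3, x ≠ 0 → net.Adj (0, 0) (x, 0) := by decide +kernel
        exact (this x hx).reachable
    have hA : ∀ x : Fin 3, net.Adj (x, 0) (x, 1) ∧ net.Adj (x, 1) (x, 2) ∧
        net.Adj (x, 1) (x, 5) ∧ net.Adj (x, 2) (x, 3) ∧ net.Adj (x, 2) (x, 4) ∧
        net.Adj (x, 5) (x, 6) ∧ net.Adj (x, 5) (x, 7) := by decide +kernel
    rintro ⟨x, i⟩
    obtain ⟨h1, h2, h3, h4, h5, h6, h7⟩ := hA x
    have s1 := (r0 x).trans h1.reachable
    have s2 := s1.trans h2.reachable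
    have s5 := s1.trans h3.reachable
    fin_cases i
    · exact r0 x
    · exact s1
    · exact s2
    · exact s2.trans h4.reachable
    · exact s2.trans h5.reachable
    · exact s5
    · exact s5.trans h6.reachable
    · exact s5.trans h7.reachable
  have : Nonempty (Fin 3 × Fin 8) := ⟨(0, 0)⟩
  exact SimpleGraph.Connected.mk (fun a b => (h a).symm.trans (h b))

theorem degree_le : ∀ v, (net.neighborSet v).ncard ≤ 3 := by
  intro v
  have h : net.neighborSet v = ((Finset.univ.filter (fun u => net.Adj v u) :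
      Finset (Fin 3 × Fin 8)) : Set (Fin 3 × Fin 8)) := by
    ext u
    simp
  rw [h, Set.ncard_coe_finset]
  clear h
  revert v
  decide +kernel

theorem indep_le : net.indepNum ≤ 9 := by
  obtain ⟨s, hs⟩ := net.exists_isNIndepSet_indepNum
  rw [← hs.card_eq]
  exact upper s hs.isIndepSet

theorem forcing_ge : 11 ≤ zeroForcingNumber net := by
  have hne : {k | ∃ S : Finset (Fin 3 × Fin 8), S.card = k ∧
      IsZeroForcing net (S : Set (Fin 3 × Fin 8))}.Nonempty := by
    refine ⟨_, Finset.univ, rfl, ?_⟩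
    rw [Finset.coe_univ]
    exact Relation.ReflTransGen.refl
  obtain ⟨S, hS, hZ⟩ := Nat.sInf_mem hne
  unfold zeroForcingNumber
  rw [← hS]
  exact lower hZ

/-- There is a connected graph with maximum degree at most 3, not isomorphic to `K_4`, whose zero
forcing number is at least its independence number plus 2. -/
theorem result : ∃ G : SimpleGraph (Fin 3 × Fin 8), G.Connected ∧
    (∀ v, (G.neighborSet v).ncard ≤ 3) ∧ IsEmpty (G ≃g (⊤ : SimpleGraph (Fin 4))) ∧
    G.indepNum ≤ 9 ∧ 11 ≤ zeroForcingNumber G ∧ G.indepNum + 2 ≤ zeroForcingNumber G := by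
  refine ⟨net, connected, degree_le, ⟨fun e => ?_⟩, indep_le, forcing_ge, ?_⟩
  · have := Fintype.card_congr e.toEquiv
    simp at this
  · have h1 := indep_le
    have h2 := forcing_ge
    omega

end Pool.Agent.Results.MP_48c3bc_co.SubcubicNet
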